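import Pool.Agent.L7h47.GX.Abs
import Pool.Agent.Y839.CQ.SYM
import Pool.Agent.Y948.CQ.C2

/-!
# Project GX (helper3): the probability that a random symmetric completion is good (S_LA)

A port of `Pool/Agent/Y85/XK/LA.lean`.
-/

set_option autoImplicit false

open scoped Classical

namespace Pool.Agent.L7h47.GX

open Function Module Finset
open Pool.Agent.Y759.CX (fr fr_equiv fr_comp)
open Pool.Agent.L7h3.GX (S_LA prs GdA)
open Pool.Agent.Y703.CQ (S_SYM S_C2 c2)

/-- the form of a matrix -/
noncomputable def bf {ι κ : Type} [Fintype ι] [Fintype κ] (M : ι → κ → F) :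
    (ι → F) →ₗ[F] (κ → F) →ₗ[F] F :=
  LinearMap.mk₂ F (fun x y => ∑ i, ∑ k, x i * M i k * y k)
    (fun x y z => by
      rw [← sum_add_distrib]
      refine sum_congr rfl fun i _ => ?_
      rw [← sum_add_distrib]
      exact sum_congr rfl fun k _ => by rw [Pi.add_apply]; ring)
    (fun a x y => by
      rw [smul_eq_mul, mul_sum]
      refine sum_congr rfl fun i _ => ?_
      rw [mul_sum]
      exact sum_congr rfl fun k _ => by rw [Pi.smul_apply, smul_eq_mul]; ring)
    (fun x y z => by
      rw [← sum_add_distrib]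
      refine sum_congr rfl fun i _ => ?_
      rw [← sum_add_distrib]
      exact sum_congr rfl fun k _ => by rw [Pi.add_apply]; ring)
    (fun a x y => by
      rw [smul_eq_mul, mul_sum]
      refine sum_congr rfl fun i _ => ?_
      rw [mul_sum]
      exact sum_congr rfl fun k _ => by rw [Pi.smul_apply, smul_eq_mul]; ring)

section forms

variable {ι κ : Type} [Fintype ι] [Fintype κ]

lemma bf_apply (M : ι → κ → F) (x : ι → F) (y : κ → F) :
    bf M x y = ∑ i, ∑ k, x i * M i k * y k := rfl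

lemma bf_l (M : ι → κ → F) (x : ι → F) (y : κ → F) :
    bf M x y = ∑ k, (∑ i, x i * M i k) * y k := by
  rw [bf_apply, sum_comm]
  exact sum_congr rfl fun k _ => by rw [sum_mul]

lemma bf_r (M : ι → κ → F) (x : ι → F) (y : κ → F) :
    bf M x y = ∑ i, (∑ k, M i k * y k) * x i := by
  rw [bf_apply]
  refine sum_congr rfl fun i _ => ?_
  rw [sum_mul]
  exact sum_congr rfl fun k _ => by ring

lemma bf_symm (M : ι → ι → F) (h : ∀ i j, M i j = M j i) (x y : ι → F) :
    bf M x y = bf M y x := by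
  rw [bf_apply, bf_apply, sum_comm]
  exact sum_congr rfl fun k _ => sum_congr rfl fun i _ => by rw [h i k]; ring

lemma bf_add (M M' : ι → κ → F) : bf (fun i k => M i k + M' i k) = bf M + bf M' := by
  refine LinearMap.ext fun x => LinearMap.ext fun y => ?_
  show bf _ x y = bf M x y + bf M' x y
  rw [bf_apply, bf_apply, bf_apply, ← sum_add_distrib]
  refine sum_congr rfl fun i _ => ?_
  rw [← sum_add_distrib]
  exact sum_congr rfl fun k _ => by ring

lemma bf_single [DecidableEq ι] [DecidableEq κ] (M : ι → κ → F) (i : ι) (k : κ) :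
    bf M (Pi.single i 1) (Pi.single k 1) = M i k := by
  rw [bf_apply, sum_eq_single i, sum_eq_single k]
  · rw [Pi.single_eq_same, Pi.single_eq_same, one_mul, mul_one]
  · intro k' _ hk
    rw [Pi.single_eq_of_ne hk, mul_zero]
  · intro h
    exact absurd (mem_univ _) h
  · intro i' _ hi
    refine sum_eq_zero fun k' _ => ?_
    rw [Pi.single_eq_of_ne hi, zero_mul, zero_mul]
  · intro h
    exact absurd (mem_univ _) h

lemma all_zero (w : ι → F) (h : ∀ x : ι → F, ∑ i, w i * x i = 0) (i : ι) : w i = 0 := by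
  have h1 := h (Pi.single i 1)
  rw [sum_eq_single i] at h1
  · rwa [Pi.single_eq_same, mul_one] at h1
  · intro i' _ hi
    rw [Pi.single_eq_of_ne hi, mul_zero]
  · intro h
    exact absurd (mem_univ _) h

lemma Gs_iff (MA : ι → ι → F) (MC : ι → κ → F) (MS : κ → κ → F) :
    Gs (bf MA) (bf MC) (bf MS) ↔ ∀ (x : ι → F) (y : κ → F),
      (∀ v, ∑ u, x u * MA u v + ∑ k, MC v k * y k = 0) →
      (∀ l, ∑ u, x u * MC u l + ∑ k, y k * MS k l = 0) → x = 0 ∧ y = 0 := by
  constructor
  · intro h x y h1 h2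
    refine h x y (fun x' => ?_) (fun y' => ?_)
    · rw [bf_l, bf_r, ← sum_add_distrib]
      refine sum_eq_zero fun v _ => ?_
      rw [← add_mul, h1, zero_mul]
    · rw [bf_l, bf_l, ← sum_add_distrib]
      refine sum_eq_zero fun v _ => ?_
      rw [← add_mul, h2, zero_mul]
  · intro h x y h1 h2
    refine h x y (all_zero _ fun x' => ?_) (all_zero _ fun y' => ?_)
    · have h3 := h1 x'
      rw [bf_l, bf_r, ← sum_add_distrib] at h3
      rw [← h3]
      exact sum_congr rfl fun v _ => by rw [add_mul]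
    · have h3 := h2 y'
      rw [bf_l, bf_l, ← sum_add_distrib] at h3
      rw [← h3]
      exact sum_congr rfl fun v _ => by rw [add_mul]

/-- a symmetric Laplacian has zero total -/
lemma tot_symm (R : ι → ι → F) (hR : ∀ i j, R i j = R j i) (d : ι → F) :
    ∑ k, ∑ l, R k l * (d l - d k) = 0 := by
  simp only [mul_sub, sum_sub_distrib]
  rw [sub_eq_zero, sum_comm]
  exact sum_congr rfl fun k _ => sum_congr rfl fun l _ => by rw [hR]

lemma tot_cross (B : ι → κ → F) (c : ι → F) (d : κ → F) :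
    ∑ u, ∑ l, B u l * (d l - c u) + ∑ k, ∑ u, B u k * (c u - d k) = 0 := by
  rw [sum_comm (s := (univ : Finset κ)), ← sum_add_distrib]
  refine sum_eq_zero fun u _ => ?_
  rw [← sum_add_distrib]
  refine sum_eq_zero fun k _ => ?_
  ring

/-- a column can be removed -/
lemma exists_ks (hJ : Fintype.card ι < Fintype.card κ) (B : ι → κ → F)
    (hB : ∀ w : ι → F, (∃ u, w u ≠ 0) → ∃ k, ∑ u, w u * B u k ≠ 0) :
    ∃ ks, ∀ w : ι → F, (∃ u, w u ≠ 0) → ∃ k, k ≠ ks ∧ ∑ u, w u * B u k ≠ 0 := by
  by_contra hcon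
  push Not at hcon
  choose w hw1 hw2 using hcon
  have hs : ∀ k, ∑ u, w k u * B u k ≠ 0 := by
    intro k hk
    obtain ⟨l, hl⟩ := hB (w k) (hw1 k)
    by_cases h : l = k
    · rw [h] at hl
      exact hl hk
    · exact hl (hw2 k l h)
  have hsurj : Surjective (fun (x : ι → F) (k : κ) => ∑ u, x u * B u k) := by
    intro g
    refine ⟨fun u => ∑ k, g k / (∑ v, w k v * B v k) * w k u, ?_⟩
    funext l
    show ∑ u, (∑ k, g k / (∑ v, w k v * B v k) * w k u) * B u l = g l
    simp only [sum_mul]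
    rw [sum_comm]
    have h1 : ∀ k, ∑ u, g k / (∑ v, w k v * B v k) * w k u * B u l =
        g k / (∑ v, w k v * B v k) * ∑ u, w k u * B u l := by
      intro k
      rw [mul_sum]
      exact sum_congr rfl fun u _ => by ring
    simp only [h1]
    rw [sum_eq_single l]
    · rw [div_mul_cancel₀ _ (hs l)]
    · intro k _ hk
      rw [hw2 k l (Ne.symm hk), mul_zero]
    · intro h
      exact absurd (mem_univ _) h
  have h2 := Fintype.card_le_of_surjective _ hsurj
  rw [Fintype.card_fun, Fintype.card_fun, ZMod.card] at h2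
  exact absurd ((Nat.pow_le_pow_iff_right (by norm_num)).1 h2) (not_le.2 hJ)

end forms

section main

variable {U J : Type} [Fintype U] [Fintype J] [LinearOrder J]

lemma mem_prs (k l : J) : (k, l) ∈ prs J ↔ k < l := by
  unfold Pool.Agent.L7h3.GX.prs
  rw [mem_filter]
  exact ⟨fun h => h.2, fun h => ⟨mem_univ _, h⟩⟩

lemma ext_pos (α : prs J → F) {k l : J} (h : (k, l) ∈ prs J) :
    Pool.Agent.L7h3.GX.ext α k l = α ⟨(k, l), h⟩ := by
  unfold Pool.Agent.L7h3.GX.ext
  rw [dif_pos h]

lemma ext_neg (α : prs J → F) {k l : J} (h : (k, l) ∈ prs J) :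
    Pool.Agent.L7h3.GX.ext α l k = α ⟨(k, l), h⟩ := by
  have h1 : (l, k) ∉ prs J := fun h' => lt_asymm ((mem_prs k l).1 h) ((mem_prs l k).1 h')
  unfold Pool.Agent.L7h3.GX.ext
  rw [dif_neg h1, dif_pos h]

lemma ext_self (α : prs J → F) (k : J) : Pool.Agent.L7h3.GX.ext α k k = 0 := by
  have h : (k, k) ∉ prs J := fun h => lt_irrefl k ((mem_prs k k).1 h)
  unfold Pool.Agent.L7h3.GX.ext
  rw [dif_neg h, dif_neg h]

lemma ext_symm (α : prs J → F) (k l : J) :
    Pool.Agent.L7h3.GX.ext α k l = Pool.Agent.L7h3.GX.ext α l k := by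
  rcases lt_trichotomy k l with h | h | h
  · rw [ext_pos α ((mem_prs k l).2 h), ext_neg α ((mem_prs k l).2 h)]
  · rw [h]
  · rw [ext_pos α ((mem_prs l k).2 h), ext_neg α ((mem_prs l k).2 h)]

lemma ext_add (α β : prs J → F) (k l : J) :
    Pool.Agent.L7h3.GX.ext (α + β) k l =
      Pool.Agent.L7h3.GX.ext α k l + Pool.Agent.L7h3.GX.ext β k l := by
  unfold Pool.Agent.L7h3.GX.ext
  by_cases h : (k, l) ∈ prs J
  · simp only [dif_pos h, Pi.add_apply]
  · by_cases h' : (l, k) ∈ prs J
    · simp only [dif_neg h, dif_pos h', Pi.add_apply]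
    · simp only [dif_neg h, dif_neg h', add_zero]

/-- the linear part of the matrix of the last block -/
noncomputable def mL (ks : J) (α : prs J → F) (k l : {k : J // k ≠ ks}) : F :=
  Pool.Agent.L7h3.GX.ext α k l -
    if k = l then ∑ l' : J, Pool.Agent.L7h3.GX.ext α k l' else 0

/-- the constant part -/
noncomputable def mZ (ks : J) (B : U → J → F) (k l : {k : J // k ≠ ks}) : F :=
  if k = l then - ∑ u, B u k else 0

/-- the first block -/
noncomputable def mA (A : U → U → F) (B : U → J → F) (u v : U) : F :=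
  A u v - if u = v then ∑ w, A u w + ∑ l, B u l else 0

/-- the second block -/
def mC (ks : J) (B : U → J → F) (u : U) (k : {k : J // k ≠ ks}) : F := B u k

lemma mA_symm (A : U → U → F) (B : U → J → F) (hA : ∀ u v, A u v = A v u) (u v : U) :
    mA A B u v = mA A B v u := by
  unfold mA
  by_cases h : u = v
  · rw [h]
  · rw [if_neg h, if_neg (Ne.symm h), hA]

lemma mL_symm (ks : J) (α : prs J → F) (k l : {k : J // k ≠ ks}) :
    mL ks α k l = mL ks α l k := by
  unfold mL
  by_cases h : k = l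
  · rw [h]
  · rw [if_neg h, if_neg (Ne.symm h), ext_symm α k l]

lemma mZ_symm (ks : J) (B : U → J → F) (k l : {k : J // k ≠ ks}) :
    mZ ks B k l = mZ ks B l k := by
  unfold mZ
  by_cases h : k = l
  · rw [h]
  · rw [if_neg h, if_neg (Ne.symm h)]

/-- the parametrisation -/
noncomputable def pa (ks : J) : (prs J → F) →+ Sy ({k : J // k ≠ ks} → F) where
  toFun α := ⟨bf (mL ks α), bf_symm _ (mL_symm ks α)⟩
  map_zero' := by
    refine Subtype.ext ?_
    show bf (mL ks 0) = 0
    refine LinearMap.ext fun x => LinearMap.ext fun y => ?_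
    rw [bf_apply]
    show _ = (0 : F)
    refine sum_eq_zero fun i _ => sum_eq_zero fun k _ => ?_
    have h0 : ∀ a b, Pool.Agent.L7h3.GX.ext (0 : prs J → F) a b = 0 := by
      intro a b
      have h1 := ext_add 0 0 a b
      rw [add_zero] at h1
      exact left_eq_add.1 h1
    have h : mL ks 0 i k = 0 := by
      unfold mL
      simp only [h0, sum_const_zero, ite_self, sub_zero]
    rw [h, mul_zero, zero_mul]
  map_add' α β := by
    refine Subtype.ext ?_
    show bf (mL ks (α + β)) = bf (mL ks α) + bf (mL ks β)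
    rw [← bf_add]
    congr 1
    funext k l
    unfold mL
    simp only [ext_add, sum_add_distrib]
    by_cases h : k = l
    · simp only [if_pos h]
      ring
    · simp only [if_neg h, sub_zero]

lemma pa_surj (ks : J) : Surjective (pa ks) := by
  intro T
  obtain ⟨D, hD⟩ : ∃ D : J → J → F, D = fun k l => if h : k ≠ ks ∧ l ≠ ks then
    T.1 (Pi.single ⟨k, h.1⟩ 1) (Pi.single ⟨l, h.2⟩ 1) else 0 := ⟨_, rfl⟩
  have hD1 : ∀ k l : {k : J // k ≠ ks}, D k l = T.1 (Pi.single k 1) (Pi.single l 1) := by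
    intro k l
    rw [hD]
    simp only
    rw [dif_pos ⟨k.2, l.2⟩]
  have hD0 : ∀ k, D k ks = 0 := by
    intro k
    rw [hD]
    simp only
    rw [dif_neg fun h => h.2 rfl]
  have hD0' : ∀ k, D ks k = 0 := by
    intro k
    rw [hD]
    simp only
    rw [dif_neg fun h => h.1 rfl]
  have hDs : ∀ k l : J, D k l = D l k := by
    intro k l
    by_cases hk : k = ks
    · rw [hk, hD0, hD0']
    by_cases hl : l = ks
    · rw [hl, hD0, hD0']
    have h1 := hD1 ⟨k, hk⟩ ⟨l, hl⟩
    have h2 := hD1 ⟨l, hl⟩ ⟨k, hk⟩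
    have h3 := T.2 (Pi.single ⟨k, hk⟩ 1) (Pi.single ⟨l, hl⟩ 1)
    exact h1.trans (h3.trans h2.symm)
  obtain ⟨E, hE⟩ : ∃ E : J → J → F, E = fun k l => if k = ks then - ∑ l', D l l' else
    if l = ks then - ∑ l', D k l' else D k l := ⟨_, rfl⟩
  have hE1 : ∀ k, k ≠ ks → E k ks = - ∑ l', D k l' := by
    intro k hk
    rw [hE]
    simp only
    rw [if_neg hk, if_pos trivial]
  have hE2 : ∀ k l, k ≠ ks → l ≠ ks → E k l = D k l := by
    intro k l hk hl
    rw [hE]
    simp only
    rw [if_neg hk, if_neg hl]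
  have hEs : ∀ k l, E k l = E l k := by
    intro k l
    rw [hE]
    simp only
    by_cases hk : k = ks
    · by_cases hl : l = ks
      · rw [hk, hl]
      · rw [if_pos hk, if_neg hl, if_pos hk]
    · by_cases hl : l = ks
      · rw [if_neg hk, if_pos hl, if_pos hl]
      · rw [if_neg hk, if_neg hl, if_neg hl, if_neg hk, hDs]
  obtain ⟨α, hα⟩ : ∃ α : prs J → F, α = fun e => E e.1.1 e.1.2 := ⟨_, rfl⟩
  have e1 : ∀ k l, k ≠ l → Pool.Agent.L7h3.GX.ext α k l = E k l := by
    intro k l hkl
    rcases lt_or_gt_of_ne hkl with h | h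
    · rw [ext_pos α ((mem_prs k l).2 h), hα]
    · rw [ext_neg α ((mem_prs l k).2 h), hα, hEs]
  have e4 : ∀ k, k ≠ ks → ∑ l, Pool.Agent.L7h3.GX.ext α k l = - D k k := by
    intro k hk
    have h1 : ∀ l, Pool.Agent.L7h3.GX.ext α k l = D k l - (if l = k then D k k else 0) +
        (if l = ks then - ∑ l', D k l' else 0) := by
      intro l
      by_cases hl : l = k
      · rw [hl, ext_self, if_pos rfl, if_neg hk]
        ring
      · rw [e1 k l (Ne.symm hl), if_neg hl]
        by_cases hl' : l = ks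
        · rw [hl', hE1 k hk, if_pos rfl, hD0]
          ring
        · rw [hE2 k l hk hl', if_neg hl']
          ring
    simp only [h1, sum_add_distrib, sum_sub_distrib]
    rw [sum_ite_eq', sum_ite_eq', if_pos (mem_univ _), if_pos (mem_univ _)]
    ring
  refine ⟨α, Subtype.ext ?_⟩
  show bf (mL ks α) = T.1
  refine LinearMap.ext_basis (Pi.basisFun F _) (Pi.basisFun F _) fun k l => ?_
  rw [Pi.basisFun_apply, Pi.basisFun_apply, bf_single, ← hD1]
  unfold mL
  by_cases h : k = l
  · rw [if_pos h, e4 k k.2, ← h, ext_self]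
    ring
  · rw [if_neg h, sub_zero, e1 k l fun h' => h (Subtype.ext h')]
    exact hE2 k l k.2 l.2

/-- the extension by zero -/
noncomputable def zx (ks : J) (y : {k : J // k ≠ ks} → F) (k : J) : F :=
  if h : k ≠ ks then y ⟨k, h⟩ else 0

lemma zx_of (ks : J) (y : {k : J // k ≠ ks} → F) (k : {k : J // k ≠ ks}) :
    zx ks y k = y k := by
  unfold zx
  rw [dif_pos k.2]

lemma zx_ks (ks : J) (y : {k : J // k ≠ ks} → F) : zx ks y ks = 0 := by
  unfold zx
  rw [dif_neg (fun h => h rfl)]

lemma sum_zx (ks : J) (y : {k : J // k ≠ ks} → F) (h : J → F) :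
    ∑ v, h v * zx ks y v = ∑ v : {k : J // k ≠ ks}, h v * y v := by
  have h1 : ∑ v, h v * zx ks y v = ∑ v ∈ univ.filter (fun v => v ≠ ks), h v * zx ks y v := by
    symm
    refine sum_subset (subset_univ _) fun v _ hv => ?_
    have h2 : v = ks := by
      by_contra h3
      exact hv (mem_filter.2 ⟨mem_univ _, h3⟩)
    rw [h2, zx_ks, mul_zero]
  rw [h1, Finset.sum_subtype (univ.filter fun v => v ≠ ks)
    (fun v => ⟨fun h => (mem_filter.1 h).2, fun h => mem_filter.2 ⟨mem_univ _, h⟩⟩)
    (fun v => h v * zx ks y v)]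
  exact sum_congr rfl fun v _ => by rw [zx_of]

lemma row1 (ks : J) (A : U → U → F) (B : U → J → F) (hA : ∀ u v, A u v = A v u)
    (x : U → F) (y : {k : J // k ≠ ks} → F) (v : U) :
    ∑ w, A v w * (x w - x v) + ∑ l, B v l * (zx ks y l - x v) =
      ∑ u, x u * mA A B u v + ∑ k, mC ks B v k * y k := by
  simp only [mul_sub, sum_sub_distrib, sum_zx]
  have h1 : ∑ u, x u * mA A B u v = ∑ u, A v u * x u - x v * (∑ w, A v w + ∑ l, B v l) := by
    unfold mA
    simp only [mul_sub, sum_sub_distrib]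
    congr 1
    · exact sum_congr rfl fun u _ => by rw [hA u v, mul_comm]
    · rw [sum_eq_single v]
      · rw [if_pos rfl]
      · intro u _ hu
        rw [if_neg hu, mul_zero]
      · intro h
        exact absurd (mem_univ _) h
  have h2 : ∑ k, mC ks B v k * y k = ∑ k : {k : J // k ≠ ks}, B v k * y k := rfl
  rw [h1, h2, ← sum_mul, ← sum_mul]
  ring

lemma row2 (ks : J) (B : U → J → F) (α : prs J → F)
    (x : U → F) (y : {k : J // k ≠ ks} → F) (l : {k : J // k ≠ ks}) :
    ∑ u, B u l * (x u - zx ks y l) +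
      ∑ k, Pool.Agent.L7h3.GX.ext α l k * (zx ks y k - zx ks y l) =
    ∑ u, x u * mC ks B u l + ∑ k, y k * (mL ks α k l + mZ ks B k l) := by
  simp only [mul_sub, mul_add, sum_sub_distrib, sum_add_distrib, sum_zx, zx_of]
  have h1 : ∑ k, y k * mL ks α k l =
      ∑ k : {k : J // k ≠ ks}, Pool.Agent.L7h3.GX.ext α l k * y k -
      (∑ k : J, Pool.Agent.L7h3.GX.ext α l k) * y l := by
    unfold mL
    simp only [mul_sub, sum_sub_distrib]
    congr 1
    · exact sum_congr rfl fun k _ => by rw [ext_symm α k l, mul_comm]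
    · rw [sum_eq_single l]
      · rw [if_pos rfl, mul_comm]
      · intro u _ hu
        rw [if_neg hu, mul_zero]
      · intro h
        exact absurd (mem_univ _) h
  have h2 : ∑ k, y k * mZ ks B k l = (- ∑ u, B u l) * y l := by
    unfold mZ
    rw [sum_eq_single l]
    · rw [if_pos rfl, mul_comm]
    · intro u _ hu
      rw [if_neg hu, mul_zero]
    · intro h
      exact absurd (mem_univ _) h
  have h3 : ∑ u, x u * mC ks B u l = ∑ u, B u l * x u :=
    sum_congr rfl fun u _ => by rw [mul_comm]; rfl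
  rw [h1, h2, h3, ← sum_mul, ← sum_mul]
  ring

lemma gd_iff (ks : J) (A : U → U → F) (B : U → J → F) (hA : ∀ u v, A u v = A v u)
    (α : prs J → F) :
    GdA A B (Pool.Agent.L7h3.GX.ext α) ↔
      Gs (bf (mA A B)) (bf (mC ks B)) (bf fun k l => mL ks α k l + mZ ks B k l) := by
  rw [Gs_iff]
  constructor
  · intro h x y h1 h2
    have g1 : ∀ u, ∑ v, A u v * (x v - x u) + ∑ l, B u l * (zx ks y l - x u) = 0 := by
      intro u
      rw [row1 ks A B hA]
      exact h1 u
    have g2 : ∀ k, k ≠ ks → ∑ u, B u k * (x u - zx ks y k) +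
        ∑ l, Pool.Agent.L7h3.GX.ext α k l * (zx ks y l - zx ks y k) = 0 := by
      intro k hk
      have h3 := row2 ks B α x y ⟨k, hk⟩
      rw [h2 ⟨k, hk⟩] at h3
      exact h3
    have g3 : ∑ u, B u ks * (x u - zx ks y ks) +
        ∑ l, Pool.Agent.L7h3.GX.ext α ks l * (zx ks y l - zx ks y ks) = 0 := by
      have t1 := tot_symm A hA x
      have t2 := tot_symm (Pool.Agent.L7h3.GX.ext α) (ext_symm α) (zx ks y)
      have t3 := tot_cross B x (zx ks y)
      have t4 : ∑ u, (∑ v, A u v * (x v - x u) + ∑ l, B u l * (zx ks y l - x u)) = 0 :=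
        sum_eq_zero fun u _ => g1 u
      have t5 : ∑ k, (∑ u, B u k * (x u - zx ks y k) +
          ∑ l, Pool.Agent.L7h3.GX.ext α k l * (zx ks y l - zx ks y k)) =
          ∑ u, B u ks * (x u - zx ks y ks) +
            ∑ l, Pool.Agent.L7h3.GX.ext α ks l * (zx ks y l - zx ks y ks) := by
        refine sum_eq_single ks (fun k _ hk => g2 k hk) fun h => absurd (mem_univ _) h
      rw [← t5]
      rw [sum_add_distrib] at t4 ⊢
      rw [t1, zero_add] at t4
      rw [t2, add_zero]
      rw [t4, zero_add] at t3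
      exact t3
    obtain ⟨t, h3, h4⟩ := h x (zx ks y) g1 (fun k => by
      by_cases hk : k = ks
      · rw [hk]
        exact g3
      · exact g2 k hk)
    have ht : t = 0 := by rw [← h4 ks, zx_ks]
    refine ⟨funext fun u => ?_, funext fun k => ?_⟩
    · rw [h3, ht]
      rfl
    · rw [← zx_of ks y k, h4, ht]
      rfl
  · intro h c d h1 h2
    have e2 : ∀ k, zx ks (fun k : {k : J // k ≠ ks} => d k - d ks) k = d k - d ks := by
      intro k
      by_cases hk : k = ks
      · rw [hk, zx_ks, sub_self]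
      · exact zx_of ks (fun k : {k : J // k ≠ ks} => d k - d ks) ⟨k, hk⟩
    obtain ⟨h3, h4⟩ := h (fun u => c u - d ks) (fun k => d k - d ks)
      (fun u => by
        rw [← row1 ks A B hA]
        simp only [e2, sub_sub_sub_cancel_right]
        exact h1 u)
      (fun k => by
        rw [← row2 ks B α]
        simp only [e2, sub_sub_sub_cancel_right]
        exact h2 k)
    refine ⟨d ks, fun u => ?_, fun k => ?_⟩
    · exact sub_eq_zero.1 (congrFun h3 u)
    · by_cases hk : k = ks
      · rw [hk]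
      · exact sub_eq_zero.1 (congrFun h4 ⟨k, hk⟩)

end main

theorem la_ (h : S_SYM) (h9 : S_C2) : S_LA := by
  intro U J _ _ _ A B hJ hA hB
  obtain ⟨ks, hks⟩ := exists_ks hJ B hB
  obtain ⟨m, hm, key⟩ := fr_Gs h (bf (mA A B)) (bf_symm _ (mA_symm A B hA)) (bf (mC ks B))
    (fun x hx => by
      by_contra hne
      obtain ⟨k, hk, hk'⟩ := hks x (by
        by_contra hc
        push Not at hc
        exact hne (funext hc))
      apply hk'
      exact all_zero (fun k : {k : J // k ≠ ks} => ∑ i, x i * mC ks B i k) (fun y => by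
        rw [← bf_l]
        exact hx y) ⟨k, hk⟩)
  rw [finrank_fintype_fun_eq_card, finrank_fintype_fun_eq_card] at hm
  have e1 : Fintype.card {k : J // k ≠ ks} = Fintype.card J - 1 := by
    rw [Fintype.card_subtype_compl, Fintype.card_subtype_eq]
  have h5 : ((univ.filter fun α : prs J → ZMod 2 =>
      GdA A B (Pool.Agent.L7h3.GX.ext α)).card : ℝ) / 2 ^ (prs J).card =
      fr (fun S : Sy ({k : J // k ≠ ks} → F) => Gs (bf (mA A B)) (bf (mC ks B)) S.1) := by
    let S0 : Sy ({k : J // k ≠ ks} → F) := ⟨bf (mZ ks B), bf_symm _ (mZ_symm ks B)⟩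
    rw [← fr_equiv (Equiv.addRight S0)
      (fun S : Sy ({k : J // k ≠ ks} → F) => Gs (bf (mA A B)) (bf (mC ks B)) S.1),
      ← fr_comp (pa ks) (pa_surj ks)]
    unfold Pool.Agent.Y759.CX.fr
    have h6 : Nat.card (prs J → F) = 2 ^ (prs J).card := by
      rw [Nat.card_fun, Nat.card_eq_fintype_card, Nat.card_eq_fintype_card, ZMod.card,
        Fintype.card_coe]
    rw [h6, Nat.card_eq_fintype_card, Fintype.card_subtype]
    push_cast
    congr 3
    refine Finset.filter_congr fun α _ => ?_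
    rw [gd_iff ks A B hA α, bf_add]
    exact Iff.rfl
  rw [h5, key]
  exact (h9.1 ((m + 1) / 2)).trans (third_bound (by omega))

theorem t_LA : S_LA := la_ Pool.Agent.Y839.CQ.t_SYM Pool.Agent.Y948.CQ.t_C2

end Pool.Agent.L7h47.GX
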