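import Pool.Agent.L7h3.GX.Stm
import Pool.Agent.Y759.CX.LA

/-!
# Project GX (helper3): random symmetric forms over the field with two elements (abstract part)

A port of `Pool/Agent/Y85/XK/Abs.lean`.
-/

set_option autoImplicit false

open scoped Classical

namespace Pool.Agent.L7h47.GX

open Function Module
open Pool.Agent.Y759.CX (fr fr_equiv fr_comp)
open Pool.Agent.Y703.CQ (S_SYM S_C2 c2)

abbrev F := ZMod 2

section abs

variable {V X : Type} [AddCommGroup V] [Module F V] [Finite V]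
  [AddCommGroup X] [Module F X] [Finite X]

instance finHom : Finite (V →ₗ[F] X) := DFunLike.finite _

instance finHom2 : Finite (V →ₗ[F] V →ₗ[F] F) := DFunLike.finite _

/-- the symmetric forms -/
def Sy (V : Type) [AddCommGroup V] [Module F V] : AddSubgroup (V →ₗ[F] V →ₗ[F] F) where
  carrier := {S | ∀ x y, S x y = S y x}
  zero_mem' := fun _ _ => rfl
  add_mem' := fun {S T} hS hT x y => by
    show S x y + T x y = S y x + T y x
    rw [hS, hT]
  neg_mem' := fun {S} hS x y => by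
    show - S x y = - S y x
    rw [hS]

instance finSy : Finite (Sy V) := Subtype.finite

/-- the product -/
noncomputable def sp (m : ℕ) : ℝ :=
  ∏ i ∈ Finset.range ((m + 1) / 2), (1 - (1 / 2 : ℝ) ^ (2 * i + 1))

/-- nonsingular -/
def Ns (S : V →ₗ[F] V →ₗ[F] F) : Prop := ∀ x, (∀ y, S x y = 0) → x = 0

lemma card_symm (n : ℕ) : Nat.card {M : Matrix (Fin n) (Fin n) F // M.IsSymm} =
    2 ^ (n * (n + 1) / 2) := by
  have e : {M : Matrix (Fin n) (Fin n) F // M.IsSymm} ≃ (Sym2 (Fin n) → F) :=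
    (Equiv.subtypeEquiv (Equiv.refl _) (fun M => by
      rw [Matrix.IsSymm.ext_iff]
      exact ⟨fun h i j => h j i, fun h i j => h j i⟩)).trans Sym2.lift
  rw [Nat.card_congr e, Nat.card_fun, Nat.card_eq_fintype_card, Nat.card_eq_fintype_card,
    ZMod.card, Sym2.card, Fintype.card_fin, Nat.choose_two_right, Nat.add_sub_cancel, mul_comm]

theorem fr_Ns (h : S_SYM) : fr (fun S : Sy V => Ns S.1) = sp (finrank F V) := by
  obtain ⟨n, hn⟩ : ∃ n, n = finrank F V := ⟨_, rfl⟩
  rw [← hn]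
  let b : Basis (Fin n) F V := Module.finBasisOfFinrankEq F V hn.symm
  have hsymm : ∀ S : V →ₗ[F] V →ₗ[F] F, S ∈ Sy V ↔
      ((LinearMap.BilinForm.toMatrix b).toEquiv S).IsSymm := by
    intro S
    refine Iff.trans ?_ (LinearMap.BilinForm.isSymm_toMatrix_iff_isSymm (B := S) b).symm
    exact ⟨fun h => ⟨fun x y => h x y⟩, fun h x y => h.eq x y⟩
  have hns : ∀ S : V →ₗ[F] V →ₗ[F] F, S ∈ Sy V → (Ns S ↔
      ((LinearMap.BilinForm.toMatrix b).toEquiv S).det ≠ 0) := by
    intro S hS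
    refine Iff.trans ?_ (LinearMap.BilinForm.nondegenerate_iff_det_ne_zero (B := S) b)
    exact ⟨fun h => ⟨h, fun y hy => h y fun x => by rw [hS]; exact hy x⟩, fun h => h.1⟩
  have e1 : Sy V ≃ {M : Matrix (Fin n) (Fin n) F // M.IsSymm} :=
    Equiv.subtypeEquiv (LinearMap.BilinForm.toMatrix b).toEquiv hsymm
  have e2 : {S : Sy V // Ns S.1} ≃ {M : Matrix (Fin n) (Fin n) F // M.IsSymm ∧ M.det ≠ 0} :=
    (Equiv.subtypeSubtypeEquivSubtypeInter (fun S => S ∈ Sy V) (fun S => Ns S)).trans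
      (Equiv.subtypeEquiv (LinearMap.BilinForm.toMatrix b).toEquiv fun S => by
        constructor
        · rintro ⟨h1, h2⟩
          exact ⟨(hsymm S).1 h1, (hns S h1).1 h2⟩
        · rintro ⟨h1, h2⟩
          have h3 := (hsymm S).2 h1
          exact ⟨h3, (hns S h3).2 h2⟩)
  unfold fr
  rw [Nat.card_congr e1, Nat.card_congr e2, card_symm, h n]
  push_cast
  rw [mul_div_assoc, mul_comm, div_mul_cancel₀]
  · rfl
  · positivity

/-- the block system, abstractly -/
def Gs (A : X →ₗ[F] X →ₗ[F] F) (c : X →ₗ[F] V →ₗ[F] F) (S : V →ₗ[F] V →ₗ[F] F) : Prop :=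
  ∀ x y, (∀ x', A x x' + c x' y = 0) → (∀ y', c x y' + S y y' = 0) → x = 0 ∧ y = 0

lemma exists_sec {Y : Type} [AddCommGroup Y] [Module F Y] (A : X →ₗ[F] Y) :
    ∃ s : LinearMap.range A →ₗ[F] X, ∀ z : LinearMap.range A, A (s z) = z := by
  obtain ⟨s, hs⟩ := A.rangeRestrict.exists_rightInverse_of_surjective
    (LinearMap.range_rangeRestrict A)
  exact ⟨s, fun z => congrArg Subtype.val (LinearMap.congr_fun hs z)⟩

/-- the linear solution of the first equation on the annihilator of the radical -/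
lemma exists_sigma (A : X →ₗ[F] X →ₗ[F] F) (hA : ∀ x y, A x y = A y x)
    (c : X →ₗ[F] V →ₗ[F] F) (Z : Submodule F V) (hZ : ∀ z ∈ Z, ∀ k, A k = 0 → c k z = 0) :
    ∃ σ : Z →ₗ[F] X, ∀ z : Z, ∀ x', A (σ z) x' + c x' (z : V) = 0 := by
  obtain ⟨s, hs'⟩ := exists_sec A
  have hr : ∀ g : X →ₗ[F] F, (∀ k, A k = 0 → g k = 0) → g ∈ LinearMap.range A := by
    intro g hg
    have h1 : g ∈ (LinearMap.ker A).dualAnnihilator := by
      rw [Submodule.mem_dualAnnihilator]
      exact fun k hk => hg k hk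
    rw [← LinearMap.range_dualMap_eq_dualAnnihilator_ker] at h1
    obtain ⟨φ, hφ⟩ := h1
    obtain ⟨x, hx⟩ := (Module.evalEquiv F X).surjective φ
    refine ⟨x, ?_⟩
    rw [← hφ, ← hx]
    refine LinearMap.ext fun x' => ?_
    rw [hA x x', LinearMap.dualMap_apply, Module.evalEquiv_apply, Module.Dual.eval_apply]
  let T : Z →ₗ[F] LinearMap.range A := LinearMap.codRestrict (LinearMap.range A)
    (-(c.flip ∘ₗ Z.subtype)) fun z => hr _ fun k hk => by
      show -(c k (z : V)) = 0
      rw [hZ z z.2 k hk, neg_zero]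
  refine ⟨s ∘ₗ T, fun z x' => ?_⟩
  have h1 : A (s (T z)) = T z := hs' (T z)
  show A (s (T z)) x' + c x' (z : V) = 0
  rw [h1]
  show -(c x' (z : V)) + c x' (z : V) = 0
  rw [neg_add_cancel]

theorem fr_Gs (hsym : S_SYM) (A : X →ₗ[F] X →ₗ[F] F) (hA : ∀ x y, A x y = A y x)
    (c : X →ₗ[F] V →ₗ[F] F) (hc : ∀ x, (∀ y, c x y = 0) → x = 0) :
    ∃ m, finrank F V ≤ m + finrank F X ∧ fr (fun S : Sy V => Gs A c S.1) = sp m := by
  let D : Submodule F (Module.Dual F V) := (LinearMap.ker A).map c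
  let Z : Submodule F V := D.dualCoannihilator
  have hZ : ∀ z, z ∈ Z ↔ ∀ k, A k = 0 → c k z = 0 := by
    intro z
    rw [Submodule.mem_dualCoannihilator]
    constructor
    · intro h k hk
      exact h (c k) ⟨k, hk, rfl⟩
    · rintro h _ ⟨k, hk, rfl⟩
      exact h k hk
  have hdd : ∀ f : V →ₗ[F] F, (∀ z ∈ Z, f z = 0) → ∃ k, A k = 0 ∧ c k = f := by
    intro f hf
    have h1 : f ∈ Z.dualAnnihilator := by
      rw [Submodule.mem_dualAnnihilator]
      exact hf
    have h2 : Z.dualAnnihilator = D := Subspace.dualCoannihilator_dualAnnihilator_eq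
    rw [h2] at h1
    obtain ⟨k, hk, hk'⟩ := h1
    exact ⟨k, hk, hk'⟩
  have hfin : finrank F V ≤ finrank F Z + finrank F X := by
    have h1 := Subspace.finrank_add_finrank_dualCoannihilator_eq D
    have h2 : finrank F D ≤ finrank F (LinearMap.ker A) := Submodule.finrank_map_le _ _
    have h3 : finrank F (LinearMap.ker A) ≤ finrank F X := Submodule.finrank_le _
    have h4 : finrank F Z = finrank F D.dualCoannihilator := rfl
    omega
  obtain ⟨σ, hσ⟩ := exists_sigma A hA c Z fun z hz => (hZ z).1 hz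
  let ρ : Sy V →+ Sy Z :=
    { toFun := fun T => ⟨T.1.compl₁₂ Z.subtype Z.subtype, fun x y => T.2 x y⟩
      map_zero' := rfl
      map_add' := fun _ _ => rfl }
  have hρ : Surjective ρ := by
    obtain ⟨q, hq⟩ := LinearMap.exists_leftInverse_of_injective Z.subtype
      (LinearMap.ker_eq_bot.2 Z.injective_subtype)
    have hq' : ∀ z : Z, q (z : V) = z := fun z => LinearMap.congr_fun hq z
    intro T
    refine ⟨⟨T.1.compl₁₂ q q, fun x y => T.2 _ _⟩, ?_⟩
    refine Subtype.ext (LinearMap.ext fun x => LinearMap.ext fun y => ?_)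
    show T.1 (q (x : V)) (q (y : V)) = T.1 x y
    rw [hq', hq']
  let β : Sy Z := ⟨c.compl₁₂ σ Z.subtype, fun x y => by
    show c (σ x) (y : V) = c (σ y) (x : V)
    have h1 := hσ y (σ x)
    have h2 := hσ x (σ y)
    rw [hA] at h1
    exact add_left_cancel (h1.trans h2.symm)⟩
  have hval : ∀ (T : Sy V) (z z' : Z), (ρ T + β).1 z z' =
      T.1 (z : V) (z' : V) + c (σ z) (z' : V) := fun _ _ _ => rfl
  have hiff : ∀ S : Sy V, Gs A c S.1 ↔ Ns (ρ S + β).1 := by
    intro S
    constructor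
    · intro h z hz
      obtain ⟨k, hk, hk'⟩ := hdd (-(S.1 (z : V) + c (σ z))) (fun z' hz' => by
        have h1 := hz ⟨z', hz'⟩
        rw [hval] at h1
        show -(S.1 (z : V) z' + c (σ z) z') = 0
        rw [neg_eq_zero]
        exact h1)
      have h2 := h (σ z + k) (z : V) (fun x' => by
          rw [map_add, hk, add_zero]
          exact hσ z x')
        (fun y' => by
          rw [map_add, hk']
          show c (σ z) y' + -(S.1 (z : V) y' + c (σ z) y') + S.1 (z : V) y' = 0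
          ring)
      exact Subtype.ext h2.2
    · intro h x y h1 h2
      have hy : y ∈ Z := (hZ y).2 fun k hk => by
        have h3 := h1 k
        rw [hA, hk, LinearMap.zero_apply, zero_add] at h3
        exact h3
      have h4 : A (x - σ ⟨y, hy⟩) = 0 := by
        refine LinearMap.ext fun x' => ?_
        rw [map_sub, LinearMap.sub_apply, LinearMap.zero_apply, sub_eq_zero]
        exact add_right_cancel ((h1 x').trans (hσ ⟨y, hy⟩ x').symm)
      have h5 : (⟨y, hy⟩ : Z) = 0 := h _ fun z' => by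
        rw [hval]
        have h6 := (hZ z').1 z'.2 _ h4
        rw [map_sub, LinearMap.sub_apply, sub_eq_zero] at h6
        rw [← h6, add_comm]
        exact h2 z'
      have h6 : y = 0 := congrArg Subtype.val h5
      refine ⟨hc x fun y' => ?_, h6⟩
      have h7 := h2 y'
      rw [h6, map_zero, LinearMap.zero_apply, add_zero] at h7
      exact h7
  refine ⟨finrank F Z, hfin, ?_⟩
  rw [← fr_Ns hsym (V := Z), ← fr_equiv (Equiv.addRight β) (fun S : Sy Z => Ns S.1),
    ← fr_comp ρ hρ]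
  congr 1
  funext T
  exact propext (hiff T)

lemma third_bound {m u n : ℕ} (h : n ≤ m + u + 1) :
    (1 / 4 : ℝ) ^ ((m + 1) / 2) ≤ 2 * (2 ^ u / 2 ^ n) := by
  have h1 : (1 / 4 : ℝ) ^ ((m + 1) / 2) ≤ (1 / 2) ^ m := by
    have h2 : (1 / 4 : ℝ) = (1 / 2) ^ 2 := by norm_num
    rw [h2, ← pow_mul]
    exact pow_le_pow_of_le_one (by norm_num) (by norm_num) (by omega)
  refine h1.trans ?_
  rw [← mul_div_assoc, le_div_iff₀ (by positivity), one_div_pow, one_div,
    inv_mul_le_iff₀ (by positivity)]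
  have h3 : (2 : ℝ) ^ m * (2 * 2 ^ u) = 2 ^ (m + u + 1) := by ring
  rw [h3]
  exact pow_le_pow_right₀ (by norm_num) h

end abs

end Pool.Agent.L7h47.GX
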